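import Pool.Agent.helper33.NO.CoreAll
import Pool.Agent.helper64.NO.Cut
import Mathlib.Combinatorics.SimpleGraph.DegreeSum

set_option autoImplicit false

/-!
# From the core theorem (signs) to partitions: near-balanced polarized or exact
-/

namespace Pool.Agent.helper77.NO

open Finset Pool.Agent.helper2.Bis

section

variable {V : Type} [Fintype V] [DecidableEq V]

/-- the set of the vertices of sign `1` -/
theorem mem_pos (z : V → ℝ) (hz : ∀ v, z v = 1 ∨ z v = -1) (v : V) :
    (v ∈ univ.filter (fun v => z v = 1) ↔ z v = 1) ∧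
      (v ∉ univ.filter (fun v => z v = 1) ↔ z v = -1) := by
  constructor
  · simp
  · simp only [Finset.mem_filter, Finset.mem_univ, true_and]
    rcases hz v with h | h <;> rw [h] <;> norm_num

theorem sum_sign_weight (z : V → ℝ) (hz : ∀ v, z v = 1 ∨ z v = -1) (w : V → ℝ) :
    ∑ v ∈ univ.filter (fun v => z v = 1), w v - ∑ v ∈ (univ.filter (fun v => z v = 1))ᶜ, w v =
      ∑ v, w v * z v := by
  have h1 : ∑ v, w v * z v = ∑ v ∈ univ.filter (fun v => z v = 1), w v * z v +
      ∑ v ∈ (univ.filter (fun v => z v = 1))ᶜ, w v * z v :=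
    (Finset.sum_add_sum_compl _ _).symm
  have h2 : ∑ v ∈ univ.filter (fun v => z v = 1), w v * z v =
      ∑ v ∈ univ.filter (fun v => z v = 1), w v := by
    refine Finset.sum_congr rfl fun v hv => ?_
    rw [((mem_pos z hz v).1).1 hv, mul_one]
  have h3 : ∑ v ∈ (univ.filter (fun v => z v = 1))ᶜ, w v * z v =
      - ∑ v ∈ (univ.filter (fun v => z v = 1))ᶜ, w v := by
    rw [← Finset.sum_neg_distrib]
    refine Finset.sum_congr rfl fun v hv => ?_
    rw [((mem_pos z hz v).2).1 (Finset.mem_compl.1 hv)]
    ring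
  rw [h1, h2, h3]
  ring

theorem sum_sign_card (z : V → ℝ) (hz : ∀ v, z v = 1 ∨ z v = -1) :
    2 * ((univ.filter (fun v => z v = 1)).card : ℝ) - Fintype.card V = ∑ v, z v := by
  have h1 := sum_sign_weight z hz (fun _ => 1)
  simp only [Finset.sum_const, nsmul_eq_mul, mul_one, one_mul] at h1
  have h2 := Finset.card_add_card_compl (univ.filter (fun v => z v = 1))
  have h3 : ((univ.filter (fun v => z v = 1)).card : ℝ) +
      (((univ.filter (fun v => z v = 1))ᶜ).card : ℝ) = Fintype.card V := by exact_mod_cast h2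
  linarith

theorem nb_eq (R : SimpleGraph V) [DecidableRel R.Adj] (v : V) :
    nb R.Adj v = R.neighborFinset v := by
  ext w
  simp [mem_nb]

theorem dg_eq (R : SimpleGraph V) [DecidableRel R.Adj] (v : V) : dg R.Adj v = R.degree v := by
  unfold dg
  rw [nb_eq, SimpleGraph.card_neighborFinset_eq_degree]

/-- neighbours in the set and outside it -/
theorem own_eq (R : SimpleGraph V) [DecidableRel R.Adj] (z : V → ℝ)
    (hz : ∀ v, z v = 1 ∨ z v = -1) (v : V) :
    2 * ((R.neighborFinset v ∩ univ.filter (fun v => z v = 1)).card : ℝ) =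
        R.degree v + ∑ u ∈ nb R.Adj v, z u ∧
      2 * ((R.neighborFinset v \ univ.filter (fun v => z v = 1)).card : ℝ) =
        R.degree v - ∑ u ∈ nb R.Adj v, z u := by
  have h1 : ∑ u ∈ nb R.Adj v, z u =
      ((R.neighborFinset v ∩ univ.filter (fun v => z v = 1)).card : ℝ) -
      ((R.neighborFinset v \ univ.filter (fun v => z v = 1)).card : ℝ) := by
    rw [nb_eq, ← Finset.sum_inter_add_sum_sdiff (R.neighborFinset v)
      (univ.filter (fun v => z v = 1)) z]
    have e1 : ∑ u ∈ R.neighborFinset v ∩ univ.filter (fun v => z v = 1), z u =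
        ((R.neighborFinset v ∩ univ.filter (fun v => z v = 1)).card : ℝ) := by
      rw [Finset.card_eq_sum_ones, Nat.cast_sum]
      refine Finset.sum_congr rfl fun u hu => ?_
      rw [((mem_pos z hz u).1).1 (Finset.mem_inter.1 hu).2]
      simp
    have e2 : ∑ u ∈ R.neighborFinset v \ univ.filter (fun v => z v = 1), z u =
        -((R.neighborFinset v \ univ.filter (fun v => z v = 1)).card : ℝ) := by
      rw [Finset.card_eq_sum_ones, Nat.cast_sum, ← Finset.sum_neg_distrib]
      refine Finset.sum_congr rfl fun u hu => ?_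
      rw [((mem_pos z hz u).2).1 (Finset.mem_sdiff.1 hu).2]
      simp
    rw [e1, e2]
    ring
  have h2 : (R.degree v : ℝ) =
      ((R.neighborFinset v ∩ univ.filter (fun v => z v = 1)).card : ℝ) +
      ((R.neighborFinset v \ univ.filter (fun v => z v = 1)).card : ℝ) := by
    rw [← SimpleGraph.card_neighborFinset_eq_degree]
    exact_mod_cast (Finset.card_inter_add_card_sdiff (R.neighborFinset v)
      (univ.filter (fun v => z v = 1))).symm
  constructor <;> linarith

/-- an edge-minimal graph has at most `m n` edges -/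
theorem edges_le (R : SimpleGraph V) [DecidableRel R.Adj] (m : ℕ)
    (hmin : ∀ u v, R.Adj u v → R.degree u = m ∨ R.degree v = m) :
    R.edgeFinset.card ≤ m * Fintype.card V := by
  classical
  have h1 : R.edgeFinset ⊆ (univ.filter (fun v => R.degree v = m)).biUnion
      (fun v => R.incidenceFinset v) := by
    intro e he
    rw [Finset.mem_biUnion]
    induction e using Sym2.ind with
    | _ u v =>
      rw [SimpleGraph.mem_edgeFinset, SimpleGraph.mem_edgeSet] at he
      rcases hmin u v he with h | h
      · refine ⟨u, Finset.mem_filter.2 ⟨Finset.mem_univ _, h⟩, ?_⟩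
        rw [SimpleGraph.mem_incidenceFinset]
        exact ⟨he, Sym2.mem_mk_left u v⟩
      · refine ⟨v, Finset.mem_filter.2 ⟨Finset.mem_univ _, h⟩, ?_⟩
        rw [SimpleGraph.mem_incidenceFinset]
        exact ⟨he, Sym2.mem_mk_right u v⟩
  have h2 : ((univ.filter (fun v => R.degree v = m)).biUnion
      (fun v => R.incidenceFinset v)).card ≤ (univ.filter (fun v => R.degree v = m)).card * m := by
    refine Finset.card_biUnion_le_card_mul _ _ m fun v hv => ?_
    rw [SimpleGraph.card_incidenceFinset_eq_degree]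
    exact (Finset.mem_filter.1 hv).2.le
  have h3 : (univ.filter (fun v => R.degree v = m)).card ≤ Fintype.card V :=
    Finset.card_le_univ _
  calc R.edgeFinset.card ≤ _ := Finset.card_le_card h1
    _ ≤ _ := h2
    _ ≤ Fintype.card V * m := Nat.mul_le_mul_right _ h3
    _ = _ := mul_comm _ _

/-- the size of the cut -/
theorem cut_lt (R : SimpleGraph V) [DecidableRel R.Adj] (m : ℕ) (hm : 0 < m)
    (hmin : ∀ u v, R.Adj u v → R.degree u = m ∨ R.degree v = m) (z : V → ℝ)
    (hz : ∀ v, z v = 1 ∨ z v = -1) (J s : ℝ) (hs : 0 ≤ s)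
    (h : s / 4 * Fintype.card V < ∑ v, J * z v * ∑ u ∈ nb R.Adj v, z u) :
    s / (4 * m) * (R.edgeFinset.card : ℝ) < J * (2 * (R.edgeFinset.card : ℝ) -
      4 * ∑ v ∈ univ.filter (fun v => z v = 1),
        ((R.neighborFinset v \ univ.filter (fun v => z v = 1)).card : ℝ)) := by
  have h0 : ∑ u, z u * ∑ v ∈ nb R.Adj u, z v = 2 * (R.edgeFinset.card : ℝ) -
      4 * ∑ v ∈ univ.filter (fun v => z v = 1),
        ((R.neighborFinset v \ univ.filter (fun v => z v = 1)).card : ℝ) := by
    rw [Pool.Agent.helper64.NO.cut_eq R.Adj (fun u v h => h.symm) z hz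
      (univ.filter (fun v => z v = 1)) (fun v => (mem_pos z hz v).1)]
    have e1 : ∑ u, (dg R.Adj u : ℝ) = 2 * (R.edgeFinset.card : ℝ) := by
      have e2 : ∑ u, dg R.Adj u = 2 * R.edgeFinset.card := by
        rw [← SimpleGraph.sum_degrees_eq_twice_card_edges]
        exact Finset.sum_congr rfl fun v _ => dg_eq R v
      exact_mod_cast e2
    rw [e1]
    congr 2
    refine Finset.sum_congr rfl fun v _ => ?_
    rw [nb_eq]
  rw [← h0]
  have h1 : ∑ v, J * z v * ∑ u ∈ nb R.Adj v, z u =
      J * ∑ v, z v * ∑ u ∈ nb R.Adj v, z u := by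
    rw [Finset.mul_sum]
    refine Finset.sum_congr rfl fun v _ => ?_
    ring
  rw [h1] at h
  have hmR : (0 : ℝ) < m := by exact_mod_cast hm
  have h2 : (R.edgeFinset.card : ℝ) ≤ m * Fintype.card V := by
    exact_mod_cast edges_le R m hmin
  have h3 : s / (4 * m) * (R.edgeFinset.card : ℝ) ≤ s / (4 * m) * (m * Fintype.card V) :=
    mul_le_mul_of_nonneg_left h2 (by positivity)
  have h4 : s / (4 * (m : ℝ)) * (m * Fintype.card V) = s / 4 * Fintype.card V := by
    field_simp
  linarith

end

/-- the final statement -/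
theorem final :
    ∃ C : ℕ, ∀ (k m r : ℕ) (V : Type) [Fintype V] [DecidableEq V] (G R : SimpleGraph V)
      [DecidableRel G.Adj] [DecidableRel R.Adj] (w : Fin r → V → ℝ) (s : ℝ),
      s = (m : ℝ) - 2 * k → (C : ℝ) ≤ s → R ≤ G → (∀ v, m ≤ R.degree v) →
      (∀ u v, R.Adj u v → R.degree u = m ∨ R.degree v = m) → (∀ i v, |w i v| ≤ 1) →
      (∃ A : Finset V,
        (∀ v, k ≤ ((G.neighborFinset v).filter (fun u => (u ∈ A ↔ v ∈ A))).card) ∧
        (∀ i, |∑ v ∈ A, w i v - ∑ v ∈ Aᶜ, w i v| ≤
          C * (r + 1) * (m * (Fintype.card V : ℝ) / s ^ 2 + s)) ∧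
        |2 * (A.card : ℝ) - Fintype.card V| ≤
          C * (r + 1) * (m * (Fintype.card V : ℝ) / s ^ 2 + s) ∧
        ((C : ℝ) * (r + 1) * m ^ 2 ≤ s ^ 3 → m ^ 3 ≤ Fintype.card V →
          |2 * (A.card : ℝ) - Fintype.card V| ≤ 1 ∨
          ((Fintype.card V : ℝ) ≤ 2 * A.card ∧
            ((A.filter (fun v => ((R.neighborFinset v ∩ A).card : ℝ) ≤
              (R.degree v : ℝ) / 2 + 7 * s / 16)).card : ℝ) ≤
              C * (r + 1) * m ^ 2 / s ^ 3 * Fintype.card V ∧
            ∑ v ∈ A, ((R.neighborFinset v \ A).card : ℝ) <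
              (1 / 2 - s / (16 * m)) * R.edgeFinset.card))) ∧
      (∃ A : Finset V,
        (∀ v, k ≤ ((G.neighborFinset v).filter (fun u => (u ∈ A ↔ v ∉ A))).card) ∧
        (∀ i, |∑ v ∈ A, w i v - ∑ v ∈ Aᶜ, w i v| ≤
          C * (r + 1) * (m * (Fintype.card V : ℝ) / s ^ 2 + s)) ∧
        |2 * (A.card : ℝ) - Fintype.card V| ≤
          C * (r + 1) * (m * (Fintype.card V : ℝ) / s ^ 2 + s) ∧
        ((C : ℝ) * (r + 1) * m ^ 2 ≤ s ^ 3 → m ^ 3 ≤ Fintype.card V →
          |2 * (A.card : ℝ) - Fintype.card V| ≤ 1 ∨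
          ((Fintype.card V : ℝ) ≤ 2 * A.card ∧
            ((A.filter (fun v => ((R.neighborFinset v \ A).card : ℝ) ≤
              (R.degree v : ℝ) / 2 + 7 * s / 16)).card : ℝ) ≤
              C * (r + 1) * m ^ 2 / s ^ 3 * Fintype.card V ∧
            (1 / 2 + s / (16 * m)) * R.edgeFinset.card <
              ∑ v ∈ A, ((R.neighborFinset v \ A).card : ℝ)))) := by
  classical
  refine ⟨2 ^ 30, fun k m r V _ _ G R _ _ w s hs hCs hRG hR hmin hw => ?_⟩
  have hcast : ((2 ^ 30 : ℕ) : ℝ) = 2 ^ 30 := by norm_num
  rw [hcast] at hCs ⊢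
  have hs32 : 32 ≤ s := le_trans (by norm_num) hCs
  have hs0 : 0 ≤ s := by linarith
  have hmR : (0 : ℝ) < m := by
    have : (0 : ℝ) ≤ k := Nat.cast_nonneg _
    linarith
  have hm0 : 0 < m := by exact_mod_cast hmR
  have main : ∀ J : ℝ, J = 1 ∨ J = -1 → _ := fun J hJ =>
    Pool.Agent.helper33.NO.core_all R.Adj (fun u v h => h.symm)
      (fun v hv => R.loopless.irrefl v hv) k m r s hs hs32 w hw
      (fun v => by rw [dg_eq]; exact hR v)
      (fun u v h => by rw [dg_eq, dg_eq]; exact hmin u v h) J hJ
  constructor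
  · obtain ⟨z, hz, hwz, hbal, hk, hdich⟩ := main 1 (Or.inl rfl)
    refine ⟨univ.filter (fun v => z v = 1), fun v => (hk v).trans ?_, fun i => ?_, ?_,
      fun hC hn => ?_⟩
    · apply Finset.card_le_card
      intro u hu
      rw [Finset.mem_filter, nb_eq] at hu
      rw [Finset.mem_filter]
      refine ⟨?_, ?_⟩
      · rw [SimpleGraph.mem_neighborFinset] at hu ⊢
        exact hRG hu.1
      · have h1 := hu.2
        simp only [Finset.mem_filter, Finset.mem_univ, true_and]
        rcases hz v with h | h <;> rcases hz u with h' | h' <;> rw [h, h'] at h1 ⊢ <;>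
          first | (exfalso; revert h1; norm_num; done) | norm_num
    · rw [sum_sign_weight z hz (w i)]
      exact hwz i
    · rw [sum_sign_card z hz]
      exact hbal
    · rw [sum_sign_card z hz]
      rcases hdich hC hn with h1 | ⟨h1, h3, h4⟩
      · exact Or.inl h1
      · refine Or.inr ⟨?_, ?_, ?_⟩
        · have h5 := sum_sign_card z hz
          linarith
        · refine le_trans ?_ h3
          have h5 : (univ.filter (fun v => z v = 1)).filter
              (fun v => ((R.neighborFinset v ∩ univ.filter (fun v => z v = 1)).card : ℝ) ≤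
                (R.degree v : ℝ) / 2 + 7 * s / 16) ⊆
              univ.filter (fun v => z v = 1 ∧
                1 * z v * ∑ u ∈ nb R.Adj v, z u ≤ 7 * s / 8) := by
            intro v hv
            rw [Finset.mem_filter, Finset.mem_filter] at hv
            rw [Finset.mem_filter]
            refine ⟨Finset.mem_univ _, hv.1.2, ?_⟩
            have h6 := (own_eq R z hz v).1
            rw [hv.1.2]
            linarith [hv.2]
          exact_mod_cast Finset.card_le_card h5
        · have h5 := cut_lt R m hm0 hmin z hz 1 s hs0 h4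
          have h6 : s / (16 * m) = s / (4 * m) / 4 := by
            field_simp
            ring
          rw [h6]
          linarith
  · obtain ⟨z, hz, hwz, hbal, hk, hdich⟩ := main (-1) (Or.inr rfl)
    refine ⟨univ.filter (fun v => z v = 1), fun v => (hk v).trans ?_, fun i => ?_, ?_,
      fun hC hn => ?_⟩
    · apply Finset.card_le_card
      intro u hu
      rw [Finset.mem_filter, nb_eq] at hu
      rw [Finset.mem_filter]
      refine ⟨?_, ?_⟩
      · rw [SimpleGraph.mem_neighborFinset] at hu ⊢
        exact hRG hu.1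
      · have h1 := hu.2
        simp only [Finset.mem_filter, Finset.mem_univ, true_and]
        rcases hz v with h | h <;> rcases hz u with h' | h' <;> rw [h, h'] at h1 ⊢ <;>
          first | (exfalso; revert h1; norm_num; done) | norm_num
    · rw [sum_sign_weight z hz (w i)]
      exact hwz i
    · rw [sum_sign_card z hz]
      exact hbal
    · rw [sum_sign_card z hz]
      rcases hdich hC hn with h1 | ⟨h1, h3, h4⟩
      · exact Or.inl h1
      · refine Or.inr ⟨?_, ?_, ?_⟩
        · have h5 := sum_sign_card z hz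
          linarith
        · refine le_trans ?_ h3
          have h5 : (univ.filter (fun v => z v = 1)).filter
              (fun v => ((R.neighborFinset v \ univ.filter (fun v => z v = 1)).card : ℝ) ≤
                (R.degree v : ℝ) / 2 + 7 * s / 16) ⊆
              univ.filter (fun v => z v = 1 ∧
                -1 * z v * ∑ u ∈ nb R.Adj v, z u ≤ 7 * s / 8) := by
            intro v hv
            rw [Finset.mem_filter, Finset.mem_filter] at hv
            rw [Finset.mem_filter]
            refine ⟨Finset.mem_univ _, hv.1.2, ?_⟩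
            have h6 := (own_eq R z hz v).2
            rw [hv.1.2]
            linarith [hv.2]
          exact_mod_cast Finset.card_le_card h5
        · have h5 := cut_lt R m hm0 hmin z hz (-1) s hs0 h4
          have h6 : s / (16 * m) = s / (4 * m) / 4 := by
            field_simp
            ring
          rw [h6]
          linarith

end Pool.Agent.helper77.NO
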